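import Pool.Agent.Q296.FK.Reg

/-!
# Job CM
-/

set_option autoImplicit false

universe u

namespace Pool.Agent.Q296.FK

open IsLocalRing RingTheory.Sequence MvPolynomial

variable {k : Type} [Field k]

/-- the variables of `s` are set to zero -/
noncomputable def ev (k : Type) [Field k] (s : Finset (Fin 6)) :
    MvPolynomial (Fin 6) k →ₐ[k] MvPolynomial (Fin 6) k :=
  aeval fun i => if i ∈ s then 0 else X i

/-- the ideal generated by the variables of `s` -/
noncomputable def K (k : Type) [Field k] (s : Finset (Fin 6)) : Ideal (MvPolynomial (Fin 6) k) :=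
  RingHom.ker (ev k s)

instance (s : Finset (Fin 6)) : (K k s).IsPrime := RingHom.ker_isPrime _

theorem X_mem {s : Finset (Fin 6)} {i : Fin 6} (h : i ∈ s) : (X i : MvPolynomial (Fin 6) k) ∈ K k s := by
  unfold K ev
  rw [RingHom.mem_ker, aeval_X, if_pos h]

theorem X_not_mem {s : Finset (Fin 6)} {i : Fin 6} (h : i ∉ s) :
    (X i : MvPolynomial (Fin 6) k) ∉ K k s := by
  unfold K ev
  rw [RingHom.mem_ker, aeval_X, if_neg h]
  exact X_ne_zero i

theorem K_le {s : Finset (Fin 6)} {I : Ideal (MvPolynomial (Fin 6) k)} (h : ∀ i ∈ s, X i ∈ I) :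
    K k s ≤ I := by
  intro p hp
  have h1 : (Ideal.Quotient.mk I) = (Ideal.Quotient.mk I).comp (ev k s).toRingHom := by
    refine MvPolynomial.ringHom_ext (fun r => ?_) fun i => ?_
    · rw [RingHom.comp_apply]
      congr 1
      exact ((ev k s).commutes r).symm
    · rw [RingHom.comp_apply]
      show _ = Ideal.Quotient.mk I (ev k s (X i))
      unfold ev
      rw [aeval_X]
      split_ifs with hi
      · rw [map_zero]
        exact Ideal.Quotient.eq_zero_iff_mem.2 (h i hi)
      · rfl
  have h2 : ev k s p = 0 := hp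
  rw [← Ideal.Quotient.eq_zero_iff_mem, h1, RingHom.comp_apply]
  show Ideal.Quotient.mk I (ev k s p) = 0
  rw [h2, map_zero]

theorem K_lt {s t : Finset (Fin 6)} (h : s ⊆ t) {i : Fin 6} (hi : i ∈ t) (hi' : i ∉ s) :
    K k s < K k t :=
  lt_of_le_of_ne (K_le fun _ hj => X_mem (h hj)) fun he => X_not_mem hi' (he ▸ X_mem hi)

/-- the point of the spectrum -/
noncomputable def pt (k : Type) [Field k] (s : Finset (Fin 6)) :
    PrimeSpectrum (MvPolynomial (Fin 6) k) := ⟨K k s, inferInstance⟩

theorem dim6 : ringKrullDim (MvPolynomial (Fin 6) k) = 6 := by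
  rw [MvPolynomial.ringKrullDim_of_isNoetherianRing, ringKrullDim_eq_zero_of_field, zero_add,
    Nat.card_eq_fintype_card, Fintype.card_fin]
  rfl

theorem coheight_le (p : PrimeSpectrum (MvPolynomial (Fin 6) k))
    (h : ∀ i ∈ ({0, 1, 2, 3} : Finset (Fin 6)), X i ∈ p.asIdeal) : Order.coheight p ≤ 2 := by
  have h0 : (0 : ℕ∞) ≤ Order.height (pt k ∅) := bot_le
  have h1 := Order.height_add_one_le (show pt k ∅ < pt k {0} from
    K_lt (i := 0) (by decide) (by decide) (by decide))
  have h2 := Order.height_add_one_le (show pt k {0} < pt k {0, 1} from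
    K_lt (i := 1) (by decide) (by decide) (by decide))
  have h3 := Order.height_add_one_le (show pt k {0, 1} < pt k {0, 1, 2} from
    K_lt (i := 2) (by decide) (by decide) (by decide))
  have h4 := Order.height_add_one_le (show pt k {0, 1, 2} < pt k {0, 1, 2, 3} from
    K_lt (i := 3) (by decide) (by decide) (by decide))
  have h5 : Order.height (pt k {0, 1, 2, 3}) ≤ Order.height p :=
    Order.height_mono (show pt k {0, 1, 2, 3} ≤ p from K_le h)
  have h6 : ((Order.height p + Order.coheight p : ℕ∞) : WithBot ℕ∞) ≤ 6 := by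
    rw [← dim6 (k := k)]
    unfold ringKrullDim
    rw [Order.krullDim_eq_iSup_height_add_coheight_of_nonempty]
    exact WithBot.coe_le_coe.2 (le_iSup
      (fun a : PrimeSpectrum (MvPolynomial (Fin 6) k) => Order.height a + Order.coheight a) p)
  have h7 : (Order.height p + Order.coheight p : ℕ∞) ≤ 6 :=
    WithBot.coe_le_coe.1 (show ((_ : ℕ∞) : WithBot ℕ∞) ≤ ((6 : ℕ∞) : WithBot ℕ∞) from h6)
  have h8 : (4 : ℕ∞) ≤ Order.height p := by
    have e : (4 : ℕ∞) = 0 + 1 + 1 + 1 + 1 := by norm_num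
    rw [e]
    refine le_trans ?_ h5
    refine le_trans ?_ h4
    gcongr
    refine le_trans ?_ h3
    gcongr
    refine le_trans ?_ h2
    gcongr
    refine le_trans ?_ h1
    gcongr
  have h9 : (4 : ℕ∞) + Order.coheight p ≤ 6 := le_trans (by gcongr) h7
  have h10 : (6 : ℕ∞) = 4 + 2 := by norm_num
  rw [h10] at h9
  exact (ENat.add_le_add_iff_left (by exact ENat.natCast_ne_top 4)).1 h9

section
variable {S : Type u} [CommRing S] [Algebra (MvPolynomial (Fin 6) k) S]
  [Algebra.IsIntegral (MvPolynomial (Fin 6) k) S]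

theorem ker_max : (K k Finset.univ).IsMaximal := by
  have h1 : K k Finset.univ = RingHom.ker (constantCoeff : MvPolynomial (Fin 6) k →+* k) := by
    refine le_antisymm ?_ ?_
    · refine K_le fun i _ => ?_
      rw [RingHom.mem_ker, constantCoeff_X]
    · intro p hp
      rw [RingHom.mem_ker] at hp
      have h2 : (ev k Finset.univ) p = C (constantCoeff p) := by
        have h3 : (ev k Finset.univ).toRingHom = C.comp constantCoeff := by
          refine MvPolynomial.ringHom_ext (fun r => ?_) fun i => ?_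
          · rw [RingHom.comp_apply, constantCoeff_C]
            exact (ev k Finset.univ).commutes r
          · rw [RingHom.comp_apply, constantCoeff_X, map_zero]
            show ev k Finset.univ (X i) = 0
            unfold ev
            rw [aeval_X, if_pos (Finset.mem_univ _)]
        exact RingHom.congr_fun h3 p
      show ev k Finset.univ p = 0
      rw [h2, hp, map_zero]
  rw [h1]
  exact RingHom.ker_isMaximal_of_surjective _ fun a => ⟨C a, constantCoeff_C _ a⟩

/-- the primes over ideals of variables lie in `m` -/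
theorem le_m (m : Ideal S)
    (hm : ∀ m' : Ideal S, m'.IsMaximal → (∀ i, algebraMap (MvPolynomial (Fin 6) k) S (X i) ∈ m') →
      m' = m) (q : Ideal S) [q.IsPrime] {s : Finset (Fin 6)}
    (hq : q.comap (algebraMap (MvPolynomial (Fin 6) k) S) = K k s) : q ≤ m := by
  obtain ⟨Q, h1, h2, h3⟩ := Ideal.exists_ideal_over_prime_of_isIntegral_of_isPrime
    (K k Finset.univ) q (hq.le.trans (K_le fun i _ => X_mem (Finset.mem_univ i)))
  have h4 : Q.IsMaximal := Ideal.isMaximal_of_isIntegral_of_isMaximal_comap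
    (R := MvPolynomial (Fin 6) k) Q (h3.symm ▸ ker_max)
  have h5 : Q = m := hm Q h4 fun i => by
    have h6 : (X i : MvPolynomial (Fin 6) k) ∈ Q.comap (algebraMap (MvPolynomial (Fin 6) k) S) := by
      rw [h3]
      exact X_mem (Finset.mem_univ i)
    exact h6
  rw [← h5]
  exact h1

theorem height_ge (m : Ideal S) [m.IsMaximal]
    (hX : ∀ i, algebraMap (MvPolynomial (Fin 6) k) S (X i) ∈ m)
    (hm : ∀ m' : Ideal S, m'.IsMaximal → (∀ i, algebraMap (MvPolynomial (Fin 6) k) S (X i) ∈ m') →
      m' = m)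
    (q : Ideal S) [q.IsPrime]
    (hq : q.comap (algebraMap (MvPolynomial (Fin 6) k) S) = K k {0, 1}) :
    (4 : ℕ∞) ≤ m.height := by
  obtain ⟨q1, h1, i1, e1⟩ := Ideal.exists_ideal_over_prime_of_isIntegral_of_isPrime
    (K k {0, 1, 2}) q (hq.le.trans (K_lt (i := 2) (by decide) (by decide) (by decide)).le)
  obtain ⟨q2, h2, i2, e2⟩ := Ideal.exists_ideal_over_prime_of_isIntegral_of_isPrime
    (K k {0, 1, 2, 3}) q1 (e1.le.trans (K_lt (i := 3) (by decide) (by decide) (by decide)).le)
  obtain ⟨q3, h3, i3, e3⟩ := Ideal.exists_ideal_over_prime_of_isIntegral_of_isPrime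
    (K k {0, 1, 2, 3, 4}) q2 (e2.le.trans (K_lt (i := 4) (by decide) (by decide) (by decide)).le)
  have h4 : q3 ≤ m := le_m m hm q3 e3
  have n1 : q ≠ q1 := by
    intro h
    rw [h, e1] at hq
    exact (K_lt (k := k) (s := {0, 1}) (t := {0, 1, 2}) (i := 2) (by decide) (by decide)
      (by decide)).ne' hq
  have n2 : q1 ≠ q2 := by
    intro h
    rw [h, e2] at e1
    exact (K_lt (k := k) (s := {0, 1, 2}) (t := {0, 1, 2, 3}) (i := 3) (by decide) (by decide)
      (by decide)).ne' e1
  have n3 : q2 ≠ q3 := by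
    intro h
    rw [h, e3] at e2
    exact (K_lt (k := k) (s := {0, 1, 2, 3}) (t := {0, 1, 2, 3, 4}) (i := 4) (by decide)
      (by decide) (by decide)).ne' e2
  have n4 : q3 ≠ m := by
    intro h
    have h5 : (X 5 : MvPolynomial (Fin 6) k) ∈ q3.comap (algebraMap (MvPolynomial (Fin 6) k) S) := by
      rw [h]
      exact hX 5
    rw [e3] at h5
    exact X_not_mem (by decide) h5
  have hmp : m.IsPrime := inferInstance
  have l1 := Ideal.height_add_one_le_of_lt_of_isPrime (lt_of_le_of_ne h1 n1)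
  have l2 := Ideal.height_add_one_le_of_lt_of_isPrime (lt_of_le_of_ne h2 n2)
  have l3 := Ideal.height_add_one_le_of_lt_of_isPrime (lt_of_le_of_ne h3 n3)
  have l4 := Ideal.height_add_one_le_of_lt_of_isPrime (lt_of_le_of_ne h4 n4)
  have e : (4 : ℕ∞) = 0 + 1 + 1 + 1 + 1 := by norm_num
  rw [e]
  refine le_trans ?_ l4
  gcongr
  refine le_trans ?_ l3
  gcongr
  refine le_trans ?_ l2
  gcongr
  refine le_trans ?_ l1
  gcongr
  exact bot_le

/-- the coheight in the localization -/
theorem coheight_loc (m : Ideal S) [m.IsMaximal] (Q : PrimeSpectrum (Localization.AtPrime m))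
    (h : ∀ i ∈ ({0, 1, 2, 3} : Finset (Fin 6)), algebraMap S (Localization.AtPrime m)
      (algebraMap (MvPolynomial (Fin 6) k) S (X i)) ∈ Q.asIdeal) : Order.coheight Q ≤ 2 := by
  let φ : PrimeSpectrum (Localization.AtPrime m) → PrimeSpectrum (MvPolynomial (Fin 6) k) :=
    fun Q => PrimeSpectrum.comap (algebraMap (MvPolynomial (Fin 6) k) S)
      (PrimeSpectrum.comap (algebraMap S (Localization.AtPrime m)) Q)
  have hφ : StrictMono φ := by
    intro Q₁ Q₂ hlt
    have h1 : (Q₁.asIdeal.comap (algebraMap S (Localization.AtPrime m))) <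
        Q₂.asIdeal.comap (algebraMap S (Localization.AtPrime m)) := by
      have h2 : Q₁.asIdeal < Q₂.asIdeal := hlt
      refine lt_of_le_of_ne (Ideal.comap_mono h2.le) ?_
      intro he
      apply h2.ne
      rw [← IsLocalization.map_under m.primeCompl (Localization.AtPrime m) Q₁.asIdeal,
        ← IsLocalization.map_under m.primeCompl (Localization.AtPrime m) Q₂.asIdeal]
      unfold Ideal.under
      rw [he]
    have h3 : (Q₁.asIdeal.comap (algebraMap S (Localization.AtPrime m))).IsPrime :=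
      Ideal.comap_isPrime _ _
    exact Ideal.IsIntegral.comap_lt_comap (R := MvPolynomial (Fin 6) k) h1
  refine (Order.coheight_le_coheight_apply_of_strictMono φ hφ Q).trans ?_
  exact coheight_le _ h

end

/-- Job CM -/
theorem cm : Q30.FK.P_CM.{u} := by
  intro k _ S _ f hf h02 h03 h12 h13 hk01 hk23 m hmax hXm hum hcm
  let _ : Algebra (MvPolynomial (Fin 6) k) S := f.toAlgebra
  have hfin : Module.Finite (MvPolynomial (Fin 6) k) S := hf
  have hint : Algebra.IsIntegral (MvPolynomial (Fin 6) k) S := inferInstance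
  have hSN : IsNoetherianRing S := IsNoetherianRing.of_finite (MvPolynomial (Fin 6) k) S
  have halg : algebraMap (MvPolynomial (Fin 6) k) S = f := rfl
  have hXm' : ∀ i, algebraMap (MvPolynomial (Fin 6) k) S (X i) ∈ m := hXm
  have hum' : ∀ m' : Ideal S, m'.IsMaximal →
      (∀ i, algebraMap (MvPolynomial (Fin 6) k) S (X i) ∈ m') → m' = m := hum
  have hAN : IsNoetherianRing (Localization.AtPrime m) :=
    IsLocalization.isNoetherianRing m.primeCompl (Localization.AtPrime m) hSN
  -- the two components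
  have hker : ∀ (a b : Fin 6), (∀ p, f p = 0 →
      p ∈ Ideal.span ({X a, X b} : Set (MvPolynomial (Fin 6) k))) →
      (⊥ : Ideal S).comap (algebraMap (MvPolynomial (Fin 6) k) S) ≤ K k {a, b} := by
    intro a b h p hp
    have h1 : f p = 0 := hp
    have h2 : Ideal.span ({X a, X b} : Set (MvPolynomial (Fin 6) k)) ≤ K k {a, b} := by
      rw [Ideal.span_le]
      rintro x (hx | hx)
      · rw [hx]
        exact X_mem (by simp)
      · rw [Set.mem_singleton_iff.1 hx]
        exact X_mem (by simp)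
    exact h2 (h p h1)
  obtain ⟨q, -, iq, eq⟩ := Ideal.exists_ideal_over_prime_of_isIntegral (K k {0, 1}) (⊥ : Ideal S)
    (hker 0 1 hk01)
  obtain ⟨q', -, iq', eq'⟩ := Ideal.exists_ideal_over_prime_of_isIntegral (K k {2, 3})
    (⊥ : Ideal S) (hker 2 3 hk23)
  have hqm : q ≤ m := le_m m hum' q eq
  have hqm' : q' ≤ m := le_m m hum' q' eq'
  have hD : (4 : ℕ∞) ≤ m.height := height_ge m hXm' hum' q eq
  -- nonzero elements
  have hnz : ∀ (Q : Ideal S) [Q.IsPrime] (s : S), Q ≤ m → s ∉ Q →
      algebraMap S (Localization.AtPrime m) s ≠ 0 := by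
    intro Q _ s hQ hs h0
    rw [IsLocalization.map_eq_zero_iff m.primeCompl] at h0
    obtain ⟨t, ht⟩ := h0
    have h1 : (t : S) * s ∈ Q := by
      rw [ht]
      exact Q.zero_mem
    rcases Ideal.IsPrime.mem_or_mem ‹_› h1 with h | h
    · exact t.2 (hQ h)
    · exact hs h
  have hf2 : f (X 2) ∉ q := by
    intro h
    have h1 : (X 2 : MvPolynomial (Fin 6) k) ∈ q.comap (algebraMap _ S) := h
    rw [eq] at h1
    exact X_not_mem (by decide) h1
  have hf0 : f (X 0) ∉ q' := by
    intro h
    have h1 : (X 0 : MvPolynomial (Fin 6) k) ∈ q'.comap (algebraMap _ S) := h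
    rw [eq'] at h1
    exact X_not_mem (by decide) h1
  let ψ : S →+* Localization.AtPrime m := algebraMap S (Localization.AtPrime m)
  let J₁ : Ideal (Localization.AtPrime m) := Ideal.span {ψ (f (X 0)), ψ (f (X 1))}
  let J₂ : Ideal (Localization.AtPrime m) := Ideal.span {ψ (f (X 2)), ψ (f (X 3))}
  have hJ0 : ∀ a ∈ J₁, ∀ b ∈ J₂, a * b = 0 := by
    have h1 : ∀ a ∈ ({ψ (f (X 0)), ψ (f (X 1))} : Set (Localization.AtPrime m)),
        ∀ b ∈ ({ψ (f (X 2)), ψ (f (X 3))} : Set (Localization.AtPrime m)), a * b = 0 := by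
      rintro a (ha | ha) b (hb | hb)
      · rw [ha, hb, ← map_mul, ← map_mul, h02, map_zero]
      · rw [ha, Set.mem_singleton_iff.1 hb, ← map_mul, ← map_mul, h03, map_zero]
      · rw [Set.mem_singleton_iff.1 ha, hb, ← map_mul, ← map_mul, h12, map_zero]
      · rw [Set.mem_singleton_iff.1 ha, Set.mem_singleton_iff.1 hb, ← map_mul, ← map_mul, h13,
          map_zero]
    have h2 : J₁ * J₂ = ⊥ := by
      rw [eq_bot_iff, Ideal.span_mul_span, Ideal.span_le]
      rintro x ⟨a, ha, b, hb, rfl⟩
      exact h1 a ha b hb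
    intro a ha b hb
    have h3 : a * b ∈ J₁ * J₂ := Ideal.mul_mem_mul ha hb
    rw [h2] at h3
    exact h3
  have hX0 : ψ (f (X 0)) ∈ J₁ := Ideal.subset_span (Or.inl rfl)
  have hX1 : ψ (f (X 1)) ∈ J₁ := Ideal.subset_span (Or.inr rfl)
  have hX2 : ψ (f (X 2)) ∈ J₂ := Ideal.subset_span (Or.inl rfl)
  have hX3 : ψ (f (X 3)) ∈ J₂ := Ideal.subset_span (Or.inr rfl)
  have hco : ∀ Q : PrimeSpectrum (Localization.AtPrime m), J₁ ⊔ J₂ ≤ Q.asIdeal →
      Order.coheight Q ≤ 2 := by
    intro Q hQ
    refine coheight_loc (k := k) m Q ?_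
    intro i hi
    have h1 : J₁ ≤ Q.asIdeal := le_sup_left.trans hQ
    have h2 : J₂ ≤ Q.asIdeal := le_sup_right.trans hQ
    have h3 : i = 0 ∨ i = 1 ∨ i = 2 ∨ i = 3 := by
      revert i
      decide
    rcases h3 with rfl | rfl | rfl | rfl
    · exact h1 hX0
    · exact h1 hX1
    · exact h2 hX2
    · exact h2 hX3
  have hJm : J₁ ⊔ J₂ ≤ maximalIdeal (Localization.AtPrime m) := by
    have h1 : ∀ i, ψ (f (X i)) ∈ maximalIdeal (Localization.AtPrime m) := by
      intro i
      have h2 := (IsLocalization.AtPrime.to_map_mem_maximal_iff (Localization.AtPrime m) m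
        (f (X i))).2 (hXm i)
      exact h2
    refine sup_le ?_ ?_
    · refine Ideal.span_le.2 ?_
      rintro x (hx | hx)
      · rw [hx]
        exact h1 0
      · rw [Set.mem_singleton_iff.1 hx]
        exact h1 1
    · refine Ideal.span_le.2 ?_
      rintro x (hx | hx)
      · rw [hx]
        exact h1 2
      · rw [Set.mem_singleton_iff.1 hx]
        exact h1 3
  -- Cohen-Macaulay
  obtain ⟨rs, hrs, hreg, hdim⟩ := hcm
  have hlen : 4 ≤ rs.length := by
    rw [IsLocalization.AtPrime.ringKrullDim_eq_height m] at hdim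
    have h1 : m.height = (rs.length : ℕ∞) := by
      exact_mod_cast hdim
    rw [h1] at hD
    exact_mod_cast hD
  obtain ⟨n, hn⟩ : ∃ n, rs.length = n + 1 := ⟨rs.length - 1, by omega⟩
  obtain ⟨x, hxJ, hxr⟩ := exists_regular (A := Localization.AtPrime m)
    (M := Localization.AtPrime m) (J₁ ⊔ J₂) (by
      intro Q hQ hle
      have h1 := length_le_coheight rs hrs (Localization.AtPrime m) hreg.toIsWeaklyRegular
        ⟨Q, hQ.isPrime⟩ hQ
      have h2 := h1.trans (hco ⟨Q, hQ.isPrime⟩ hle)
      have h3 : rs.length ≤ 2 := by exact_mod_cast h2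
      omega)
  obtain ⟨rs', hl', hrs', hreg'⟩ := exchange rs hrs hreg n hn x (hJm hxJ) hxr
  obtain ⟨y, hyJ, hyr⟩ := exists_regular (A := Localization.AtPrime m)
    (M := QuotSMulTop x (Localization.AtPrime m)) (J₁ ⊔ J₂) (by
      intro Q hQ hle
      have h1 := length_le_coheight rs' hrs' (QuotSMulTop x (Localization.AtPrime m))
        hreg'.toIsWeaklyRegular ⟨Q, hQ.isPrime⟩ hQ
      have h2 := h1.trans (hco ⟨Q, hQ.isPrime⟩ hle)
      have h3 : rs'.length ≤ 2 := by exact_mod_cast h2
      omega)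
  rcases connected J₁ J₂ hJ0 x y hxJ hyJ hxr hyr with h | h
  · rw [h, Ideal.mem_bot] at hX0
    exact hnz q' (f (X 0)) hqm' hf0 hX0
  · rw [h, Ideal.mem_bot] at hX2
    exact hnz q (f (X 2)) hqm hf2 hX2

end Pool.Agent.Q296.FK
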