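import Pool.Agent.Q30.FK.Stm

/-!
# Regular sequences: associated primes and the exchange of the first element
-/

set_option autoImplicit false

universe u

namespace Pool.Agent.Q296.FK

open IsLocalRing RingTheory.Sequence Pointwise CategoryTheory Abelian Limits

theorem exists_assoc_lt {A M : Type u} [CommRing A] [IsNoetherianRing A] [IsLocalRing A]
    [AddCommGroup M] [Module A M] [Module.Finite A M] (x : A)
    (hx : x ∈ maximalIdeal A) (hreg : IsSMulRegular M x) (P : Ideal A)
    (hP : IsAssociatedPrime P M) :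
    ∃ Q : Ideal A, IsAssociatedPrime Q (QuotSMulTop x M) ∧ P < Q := by
  obtain ⟨hprime, m, hm⟩ := isAssociatedPrime_iff.mp hP
  let N : Submodule A M :=
    { carrier := {n | ∀ a ∈ P, a • n = 0}
      zero_mem' := fun a _ => smul_zero a
      add_mem' := by
        intro u v hu hv a ha
        rw [smul_add, hu a ha, hv a ha, add_zero]
      smul_mem' := by
        intro c u hu a ha
        rw [smul_comm, hu a ha, smul_zero] }
  have hmP : ∀ a, a ∈ P ↔ a • m = 0 := by
    intro a
    rw [hm, Submodule.mem_colon_singleton, Submodule.mem_bot]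
  have hmN : m ∈ N := fun a ha => (hmP a).mp ha
  have hm0 : m ≠ 0 := by
    rintro rfl
    apply hprime.ne_top
    rw [Ideal.eq_top_iff_one, hmP, smul_zero]
  have hN : ¬ N ≤ x • (⊤ : Submodule A M) := by
    intro hle
    have h1 : N ≤ (Ideal.span {x}) • N := by
      intro n hn
      obtain ⟨n', _, hn'⟩ := (Submodule.mem_smul_pointwise_iff_exists _ _ _).mp (hle hn)
      rw [← hn']
      refine Submodule.smul_mem_smul (Ideal.mem_span_singleton_self x) ?_
      intro a ha
      apply hreg
      change x • (a • n') = x • 0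
      rw [smul_zero, smul_comm, hn']
      exact hn a ha
    have h2 : N = ⊥ := by
      apply Submodule.eq_bot_of_le_smul_of_le_jacobson_bot (Ideal.span {x}) N
        (IsNoetherian.noetherian N) h1
      rw [IsLocalRing.jacobson_eq_maximalIdeal ⊥ bot_ne_top, Ideal.span_singleton_le_iff_mem]
      exact hx
    rw [h2, Submodule.mem_bot] at hmN
    exact hm0 hmN
  obtain ⟨n, hn, hnx⟩ := SetLike.not_le_iff_exists.mp hN
  let y : QuotSMulTop x M := Submodule.Quotient.mk n
  have hy : y ≠ 0 := by
    intro h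
    exact hnx ((Submodule.Quotient.mk_eq_zero _).mp h)
  obtain ⟨Q, hQ, hyQ⟩ := exists_le_isAssociatedPrime_of_isNoetherianRing A y hy
  refine ⟨Q, hQ, ?_⟩
  have hPQ : P ≤ Q := by
    intro a ha
    apply hyQ
    rw [Submodule.mem_colon_singleton, Submodule.mem_bot]
    change a • (Submodule.Quotient.mk n : M ⧸ (x • (⊤ : Submodule A M))) = 0
    rw [← Submodule.Quotient.mk_smul, hn a ha, Submodule.Quotient.mk_zero]
  refine lt_of_le_of_ne hPQ ?_
  rintro rfl
  have hxQ : x ∈ P := by
    apply hyQ
    rw [Submodule.mem_colon_singleton, Submodule.mem_bot]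
    change x • (Submodule.Quotient.mk n : M ⧸ (x • (⊤ : Submodule A M))) = 0
    rw [← Submodule.Quotient.mk_smul, Submodule.Quotient.mk_eq_zero]
    exact Submodule.smul_mem_pointwise_smul n x ⊤ trivial
  apply hm0
  apply hreg
  change x • m = x • 0
  rw [(hmP x).mp hxQ, smul_zero]

theorem length_le_coheight {A : Type u} [CommRing A] [IsNoetherianRing A] [IsLocalRing A]
    (rs : List A) (hrs : ∀ x ∈ rs, x ∈ maximalIdeal A) :
    ∀ (M : Type u) [AddCommGroup M] [Module A M] [Module.Finite A M], IsWeaklyRegular M rs →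
      ∀ (P : PrimeSpectrum A), IsAssociatedPrime P.asIdeal M →
        (rs.length : ℕ∞) ≤ Order.coheight P := by
  induction rs with
  | nil =>
    intro M _ _ _ _ P _
    simp
  | cons x rs ih =>
    intro M _ _ _ hr P hP
    rw [isWeaklyRegular_cons_iff] at hr
    obtain ⟨Q, hQ, hlt⟩ := exists_assoc_lt x (hrs x (by simp)) hr.1 P.asIdeal hP
    have h1 := ih (fun z hz => hrs z (by simp [hz])) (QuotSMulTop x M) hr.2 ⟨Q, hQ.1⟩ hQ
    have h2 : P < (⟨Q, hQ.1⟩ : PrimeSpectrum A) := hlt
    have h3 := Order.coheight_add_one_le h2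
    calc ((x :: rs).length : ℕ∞) = rs.length + 1 := by simp
      _ ≤ Order.coheight (⟨Q, hQ.1⟩ : PrimeSpectrum A) + 1 := by gcongr
      _ ≤ _ := h3

/-- an ideal which is contained in no associated prime contains a regular element -/
theorem exists_regular {A M : Type u} [CommRing A] [IsNoetherianRing A]
    [AddCommGroup M] [Module A M] [Module.Finite A M] (J : Ideal A)
    (h : ∀ Q ∈ associatedPrimes A M, ¬ J ≤ Q) : ∃ x ∈ J, IsSMulRegular M x := by
  by_contra hcon
  push Not at hcon
  have h1 : (J : Set A) ⊆ ⋃ p ∈ associatedPrimes A M, (id p : Ideal A) := by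
    intro x hx
    have h2 := hcon x hx
    have h3 : ∃ y : M, y ≠ 0 ∧ x • y = 0 := by
      by_contra h4
      push Not at h4
      apply h2
      intro a b hab
      by_contra hne
      apply h4 (a - b) (sub_ne_zero.2 hne)
      rw [smul_sub]
      exact sub_eq_zero.2 hab
    have h5 : x ∈ ⋃ p ∈ associatedPrimes A M, (p : Set A) := by
      rw [biUnion_associatedPrimes_eq_zero_divisors A M]
      exact h3
    exact h5
  obtain ⟨Q, hQ, hle⟩ := (J.subset_union_prime_finite (associatedPrimes.finite A M) (f := id) 0 0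
    fun _ h _ _ => h.isPrime).1 h1
  exact h Q hQ hle

/-- the length of a regular sequence drops by one modulo any regular element -/
theorem exchange {A : Type u} [CommRing A] [IsNoetherianRing A] [IsLocalRing A] (rs : List A)
    (hrs : ∀ r ∈ rs, r ∈ maximalIdeal A) (hreg : IsRegular A rs) (n : ℕ) (hn : rs.length = n + 1)
    (x : A) (hx : x ∈ maximalIdeal A) (hxr : IsSMulRegular A x) :
    ∃ rs' : List A, rs'.length = n ∧ (∀ r ∈ rs', r ∈ maximalIdeal A) ∧
      IsRegular (QuotSMulTop x A) rs' := by
  let M : ModuleCat.{u} A := ModuleCat.of A A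
  let N : ModuleCat.{u} A := ModuleCat.of A (A ⧸ maximalIdeal A)
  have hNf : Module.Finite A N := inferInstanceAs (Module.Finite A (A ⧸ maximalIdeal A))
  have hMf : Module.Finite A M := inferInstanceAs (Module.Finite A A)
  have hsupp : Module.support A N = PrimeSpectrum.zeroLocus (maximalIdeal A) := by
    show Module.support A (A ⧸ maximalIdeal A) = _
    rw [Module.support_eq_zeroLocus, Ideal.annihilator_quotient]
  have hlt : ∀ (L : Type u) [AddCommGroup L] [Module A L] [Module.Finite A L] [Nontrivial L],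
      maximalIdeal A • (⊤ : Submodule A L) < ⊤ := by
    intro L _ _ _ _
    refine lt_top_iff_ne_top.2 (Ne.symm ?_)
    exact Submodule.top_ne_ideal_smul_of_le_jacobson_annihilator
      (IsLocalRing.maximalIdeal_le_jacobson _)
  have h1 : ∀ i < rs.length, Subsingleton (Ext N M i) :=
    ModuleCat.subsingleton_ext_of_exists_isRegular (maximalIdeal A) N hsupp.subset M (hlt A) rs
      hrs hreg
  have hxM : IsSMulRegular M x := hxr
  have h2 : ∀ i < n, Subsingleton (Ext N (ModuleCat.of A (QuotSMulTop x M)) i) := by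
    intro i hi
    have zero1 := AddCommGrpCat.isZero_of_iff_subsingleton.mpr (h1 i (by omega))
    have zero2 := AddCommGrpCat.isZero_of_iff_subsingleton.mpr (h1 (i + 1) (by omega))
    exact AddCommGrpCat.subsingleton_of_isZero <| ShortComplex.Exact.isZero_of_both_zeros
      ((Ext.covariant_sequence_exact₃' N hxM.smulShortComplex_shortExact) i (i + 1) rfl)
      (zero1.eq_zero_of_src _) (zero2.eq_zero_of_tgt _)
  have hnt : Nontrivial (QuotSMulTop x A) := nontrivial_quotSMulTop_of_mem_maximalIdeal A hx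
  have hnt2 : Nontrivial (QuotSMulTop x M) := hnt
  have hfin : Module.Finite A (QuotSMulTop x M) := inferInstanceAs (Module.Finite A (QuotSMulTop x A))
  obtain ⟨rs', h3, h4, h5⟩ := ModuleCat.exists_isRegular_of_exists_subsingleton_ext
    (maximalIdeal A) n (ModuleCat.of A (QuotSMulTop x M)) (hlt (QuotSMulTop x M)) N hsupp h2
  exact ⟨rs', h3, h4, h5⟩

/-- the connectedness lemma: if `J₁ J₂ = 0` and `J₁ + J₂` contains a regular sequence of length two
then one of the ideals is zero -/
theorem connected {A : Type u} [CommRing A] [IsLocalRing A] (J₁ J₂ : Ideal A)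
    (h0 : ∀ a ∈ J₁, ∀ b ∈ J₂, a * b = 0) (x y : A) (hx : x ∈ J₁ ⊔ J₂) (hy : y ∈ J₁ ⊔ J₂)
    (hxr : IsSMulRegular A x) (hyr : IsSMulRegular (QuotSMulTop x A) y) : J₁ = ⊥ ∨ J₂ = ⊥ := by
  obtain ⟨x1, hx1, x2, hx2, rfl⟩ := Submodule.mem_sup.1 hx
  obtain ⟨y1, hy1, y2, hy2, rfl⟩ := Submodule.mem_sup.1 hy
  have hmem : x1 ∈ (x1 + x2) • (⊤ : Submodule A A) := by
    have h1 : (y1 + y2) • (Submodule.Quotient.mk x1 : A ⧸ ((x1 + x2) • (⊤ : Submodule A A))) =
        (y1 + y2) • 0 := by
      rw [smul_zero, ← Submodule.Quotient.mk_smul, Submodule.Quotient.mk_eq_zero]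
      have h2 : (y1 + y2) • x1 = (x1 + x2) • y1 := by
        rw [smul_eq_mul, smul_eq_mul]
        have h3 := h0 x1 hx1 y2 hy2
        have h4 := h0 y1 hy1 x2 hx2
        linear_combination h3 - h4
      rw [h2]
      exact Submodule.smul_mem_pointwise_smul y1 (x1 + x2) ⊤ trivial
    have h5 := hyr h1
    exact (Submodule.Quotient.mk_eq_zero _).1 h5
  obtain ⟨e, -, he⟩ := (Submodule.mem_smul_pointwise_iff_exists _ _ _).mp hmem
  rw [smul_eq_mul] at he
  have h1 : (x1 + x2) * (x1 + x2) * (e * (1 - e)) = 0 := by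
    have h2 := h0 x1 hx1 x2 hx2
    have h3 : x2 = (x1 + x2) * (1 - e) := by linear_combination he
    have h4 : (x1 + x2) * (x1 + x2) * (e * (1 - e)) = ((x1 + x2) * e) * ((x1 + x2) * (1 - e)) := by
      ring
    rw [h4, ← h3, he, h2]
  have hreg : ∀ a : A, (x1 + x2) * a = 0 → a = 0 := by
    intro a ha
    apply hxr
    show (x1 + x2) • a = (x1 + x2) • 0
    rw [smul_zero, smul_eq_mul, ha]
  have h2 : e * (1 - e) = 0 := by
    apply hreg
    apply hreg
    rw [← mul_assoc]
    exact h1
  have h3 : e = 0 ∨ 1 - e = 0 := by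
    rcases IsLocalRing.isUnit_or_isUnit_one_sub_self e with h | h
    · right
      exact (h.mul_right_eq_zero).1 h2
    · left
      exact (h.mul_left_eq_zero).1 h2
  rcases h3 with h | h
  · left
    rw [h, mul_zero] at he
    rw [eq_bot_iff]
    intro a ha
    apply hreg
    rw [← he, zero_add, mul_comm]
    exact h0 a ha x2 hx2
  · right
    have he1 : e = 1 := (sub_eq_zero.1 h).symm
    rw [he1, mul_one] at he
    have hx20 : x2 = 0 := by linear_combination he
    rw [eq_bot_iff]
    intro a ha
    apply hreg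
    rw [hx20, add_zero]
    exact h0 x1 hx1 a ha

end Pool.Agent.Q296.FK
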